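import Pool.Agent.Work.MP_c93117_an.I.Defs
import Pool.Agent.Work.MP_c93117_an.Bd.B03

/-! Blocks I-b and I-c: the quotient of `Q × Bool`. -/

open Set Topology

namespace C93117.I3

/-- sign of a boolean -/
def sg (b : Bool) : ℝ := if b then 1 else -1

@[simp] lemma sg_true : sg true = 1 := rfl
@[simp] lemma sg_false : sg false = -1 := rfl
@[simp] lemma sg_not (b : Bool) : sg (!b) = - sg b := by cases b <;> simp
lemma sg_cases (b : Bool) : sg b = 1 ∨ sg b = -1 := by cases b <;> simp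
lemma sg_sq (b : Bool) : sg b * sg b = 1 := by cases b <;> simp
lemma abs_sg (b : Bool) : |sg b| = 1 := by cases b <;> simp
lemma sg_mul_cases (a b : Bool) : sg a * sg b = 1 ∨ sg a * sg b = -1 := by
  cases a <;> cases b <;> simp

section
variable {K : Type} [MetricSpace K] [CompactSpace K] (P : C(K, ℝ) →L[ℝ] C(K, ℝ)) (Q : Set K)

/-- the functionals `± δ_s P` -/
def v (f : C(K, ℝ)) (x : Q × Bool) : ℝ := sg x.2 * P f x.1

lemma v_not (f : C(K, ℝ)) (x : Q × Bool) : v P Q f (x.1, !x.2) = - v P Q f x := by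
  simp [v]

lemma v_cont (f : C(K, ℝ)) : Continuous (v P Q f) := by
  have hsg : Continuous sg := continuous_of_discreteTopology
  exact (hsg.comp continuous_snd).mul
    ((P f).continuous.comp (continuous_subtype_val.comp continuous_fst))

/-- `near P Q a x y` iff the norm of the difference of the functionals is at most `a` -/
def near (a : ℝ) (x y : Q × Bool) : Prop := ∀ f : C(K, ℝ), |v P Q f x - v P Q f y| ≤ a * ‖f‖

lemma D_le_iff (s t : K) (σ a : ℝ) (ha : 0 ≤ a) :
    D P s t σ ≤ a ↔ ∀ f : C(K, ℝ), |P f s - σ * P f t| ≤ a * ‖f‖ := by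
  unfold D
  rw [ContinuousLinearMap.opNorm_le_iff ha]
  rfl

lemma near_iff {a : ℝ} (ha : 0 ≤ a) (x y : Q × Bool) :
    near P Q a x y ↔ D P x.1 y.1 (sg x.2 * sg y.2) ≤ a := by
  rw [D_le_iff P _ _ _ _ ha]
  refine forall_congr' fun f => ?_
  have e : v P Q f x - v P Q f y = sg x.2 * (P f x.1 - sg x.2 * sg y.2 * P f y.1) := by
    unfold v
    rw [mul_sub, ← mul_assoc, ← mul_assoc, sg_sq, one_mul]
  rw [e, abs_mul, abs_sg, one_mul]

lemma near_symm {a : ℝ} {x y : Q × Bool} (h : near P Q a x y) : near P Q a y x := fun f => by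
  rw [abs_sub_comm]; exact h f

lemma near_trans {a b : ℝ} {x y z : Q × Bool} (h : near P Q a x y) (h' : near P Q b y z) :
    near P Q (a + b) x z := fun f => by
  calc |v P Q f x - v P Q f z| ≤ |v P Q f x - v P Q f y| + |v P Q f y - v P Q f z| :=
        abs_sub_le _ _ _
    _ ≤ a * ‖f‖ + b * ‖f‖ := add_le_add (h f) (h' f)
    _ = _ := by ring

lemma near_mono {a b : ℝ} (hab : a ≤ b) {x y : Q × Bool} (h : near P Q a x y) :
    near P Q b x y := fun f => (h f).trans (by gcongr)

lemma gap' {P : C(K, ℝ) →L[ℝ] C(K, ℝ)} {Q : Set K} (hQ : CoreFacts P Q) {x y : Q × Bool}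
    (h : near P Q (1 / 2) x y) : near P Q (1 / 500) x y := by
  rw [near_iff P Q (by norm_num)] at h ⊢
  exact hQ.gap _ x.1.2 _ y.1.2 _ (sg_mul_cases _ _) h

/-- the equivalence relation on `Q × Bool` -/
def rel {P : C(K, ℝ) →L[ℝ] C(K, ℝ)} {Q : Set K} (hQ : CoreFacts P Q) : Setoid (Q × Bool) where
  r x y := near P Q (1 / 2) x y
  iseqv := by
    refine ⟨fun x f => by simp, fun {x y} h => near_symm P Q h, fun {x y z} h1 h2 => ?_⟩
    exact near_mono P Q (by norm_num) (near_trans P Q (gap' hQ h1) (gap' hQ h2))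

lemma rel_iff {P : C(K, ℝ) →L[ℝ] C(K, ℝ)} {Q : Set K} (hQ : CoreFacts P Q) (x y : Q × Bool) :
    rel hQ x y ↔ near P Q (1 / 2) x y := Iff.rfl

lemma rel_closed {P : C(K, ℝ) →L[ℝ] C(K, ℝ)} {Q : Set K} (hQ : CoreFacts P Q) :
    IsClosed {p : (Q × Bool) × (Q × Bool) | rel hQ p.1 p.2} := by
  have e : {p : (Q × Bool) × (Q × Bool) | rel hQ p.1 p.2} =
      ⋂ f : C(K, ℝ), {p | |v P Q f p.1 - v P Q f p.2| ≤ 1 / 2 * ‖f‖} := by
    ext p
    simp only [mem_iInter]
    exact Iff.rfl
  rw [e]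
  refine isClosed_iInter fun f => isClosed_le ?_ continuous_const
  exact continuous_abs.comp
    (((v_cont P Q f).comp continuous_fst).sub ((v_cont P Q f).comp continuous_snd))

end

section quot
variable {K : Type} [MetricSpace K] [CompactSpace K] {P : C(K, ℝ) →L[ℝ] C(K, ℝ)} {Q : Set K}
  (hQ : CoreFacts P Q)

/-- the quotient space -/
abbrev M : Type := Quotient (rel hQ)

/-- the projection -/
def mk (x : Q × Bool) : M hQ := Quotient.mk (rel hQ) x

lemma mk_eq {x y : Q × Bool} : mk hQ x = mk hQ y ↔ near P Q (1 / 2) x y :=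
  ⟨fun h => Quotient.exact h, fun h => Quotient.sound h⟩

lemma mk_cont : Continuous (mk hQ) := continuous_quotient_mk'

include hQ in
lemma compactQ : CompactSpace Q := isCompact_iff_compactSpace.mp hQ.closed.isCompact

lemma compactM : CompactSpace (M hQ) := by
  have := compactQ hQ
  infer_instance

lemma t2M : T2Space (M hQ) := by
  have := compactQ hQ
  exact t2_quotient _ (rel_closed hQ)

lemma closedMk : IsClosedMap (mk hQ) := by
  have := compactQ hQ
  exact isClosedMap_mk _ (rel_closed hQ)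

/-- the involution -/
def tau : M hQ → M hQ :=
  Quotient.map (fun x : Q × Bool => (x.1, !x.2)) (by
    intro x y h
    intro f
    rw [v_not, v_not, neg_sub_neg, abs_sub_comm]
    exact h f)

@[simp] lemma tau_mk (x : Q × Bool) : tau hQ (mk hQ x) = mk hQ (x.1, !x.2) := rfl

lemma mk_surj (z : M hQ) : ∃ x, mk hQ x = z := Quotient.exists_rep z

lemma tau_cont : Continuous (tau hQ) := by
  have hnot : Continuous (fun b : Bool => !b) := continuous_of_discreteTopology
  refine Continuous.quotient_map' ?_ _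
  exact continuous_fst.prodMk (hnot.comp continuous_snd)

lemma tau_tau (z : M hQ) : tau hQ (tau hQ z) = z := by
  obtain ⟨x, rfl⟩ := mk_surj hQ z
  simp

lemma tau_fix (z w : M hQ) (hz : tau hQ z = z) (hw : tau hQ w = w) : z = w := by
  obtain ⟨x, rfl⟩ := mk_surj hQ z
  obtain ⟨y, rfl⟩ := mk_surj hQ w
  have key : ∀ x : Q × Bool, tau hQ (mk hQ x) = mk hQ x →
      ∀ f, |v P Q f x| ≤ 1 / 1000 * ‖f‖ := by
    intro x hx f
    rw [tau_mk, mk_eq] at hx
    have := gap' hQ hx f
    rw [v_not] at this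
    have e : -v P Q f x - v P Q f x = (-2 : ℝ) * v P Q f x := by ring
    rw [e, abs_mul] at this
    norm_num at this
    linarith
  rw [mk_eq]
  intro f
  calc |v P Q f x - v P Q f y| ≤ |v P Q f x| + |v P Q f y| := abs_sub _ _
    _ ≤ 1 / 1000 * ‖f‖ + 1 / 1000 * ‖f‖ := add_le_add (key x hz f) (key y hw f)
    _ ≤ 1 / 2 * ‖f‖ := by
      have := norm_nonneg f
      linarith

/-- separated families in a separable dual are countable -/
lemma countable_of_sep {E : Type*} [NormedAddCommGroup E] [NormedSpace ℝ E]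
    (hsep : TopologicalSpace.SeparableSpace (StrongDual ℝ E)) {ι : Type*}
    (φ : ι → StrongDual ℝ E)
    (h : ∀ i j, (∀ x : E, |φ i x - φ j x| ≤ 2 / 5 * ‖x‖) → i = j) : Countable ι := by
  have hpd : (univ : Set ι).PairwiseDisjoint fun z => Metric.ball (φ z) (1 / 5) := by
    intro z _ w _ hzw
    refine Metric.ball_disjoint_ball ?_
    by_contra hlt
    push Not at hlt
    apply hzw
    refine h z w fun x => ?_
    rw [dist_eq_norm] at hlt
    calc |φ z x - φ w x| = ‖(φ z - φ w) x‖ := rfl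
      _ ≤ ‖φ z - φ w‖ * ‖x‖ := (φ z - φ w).le_opNorm x
      _ ≤ 2 / 5 * ‖x‖ := by gcongr; linarith
  have := hpd.countable_of_isOpen (fun z _ => Metric.isOpen_ball)
    (fun z _ => ⟨φ z, Metric.mem_ball_self (by norm_num)⟩)
  exact countable_univ_iff.mp this

/-- countability of the quotient -/
lemma countableM (p : Submodule ℝ C(K, ℝ)) (hpr : IsProj p P) (hP : ‖P‖ ≤ 1 + 1 / 10000)
    (hsep : TopologicalSpace.SeparableSpace (StrongDual ℝ p)) : Countable (M hQ) := by
  classical
  choose r hr using mk_surj hQ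
  let φ : M hQ → StrongDual ℝ p := fun z =>
    (sg (r z).2 • (ContinuousMap.evalCLM ℝ ((r z).1 : K))).comp p.subtypeL
  have hφ : ∀ z (x : p), φ z x = sg (r z).2 * (x : C(K, ℝ)) (r z).1 := fun z x => rfl
  refine countable_of_sep (E := p) hsep φ fun z w hzw => ?_
  rw [← hr z, ← hr w, mk_eq]
  intro f
  have h1 := hzw ⟨P f, hpr.mem f⟩
  rw [hφ, hφ] at h1
  calc |v P Q f (r z) - v P Q f (r w)|
      ≤ 2 / 5 * ‖(⟨P f, hpr.mem f⟩ : p)‖ := h1
    _ = 2 / 5 * ‖P f‖ := rfl
    _ ≤ 2 / 5 * ((1 + 1 / 10000) * ‖f‖) := by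
        gcongr
        exact (P.le_opNorm f).trans (by gcongr)
    _ ≤ 1 / 2 * ‖f‖ := by
        have := norm_nonneg f
        nlinarith

end quot

end C93117.I3
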